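import Pool.Agent.H91.LF.Defs2
import Pool.Agent.H27.MR.Key
import Pool.Agent.H66.AAS.StepB

/-!
The module MUA of the project LF on `MP_c59857_nt`: replacing the Möbius sum by a sum of the
Liouville function with a periodic weight.
-/

set_option autoImplicit false

open Finset Filter Topology

namespace Pool.Agent.H92.LF

open Pool.Agent.H24.MR (lam)
open Pool.Agent.H91.LF
open Pool.Agent.H27.MR

lemma abs_lam (n : ℕ) : |lam n| = 1 := by
  unfold lam
  rw [abs_pow, abs_neg, abs_one, one_pow]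

lemma abs_lz_le (n : ℤ) : |lz n| ≤ 1 := by
  unfold lz
  split_ifs
  · simp
  · rw [abs_lam]

lemma abs_sqw_le (w : ℕ) (n : ℤ) : |sqw w n| ≤ 1 := by
  unfold sqw
  split_ifs <;> simp

lemma abs_mu_le (n : ℕ) : |((ArithmeticFunction.moebius n : ℤ) : ℝ)| ≤ 1 := by
  have h := ArithmeticFunction.abs_moebius_le_one (n := n)
  exact_mod_cast h

/-- The bad event for one form. -/
def Bad (w : ℕ) (k : ℤ) : Prop :=
  k ≤ 0 ∨ (0 < k ∧ ∃ p : ℕ, p.Prime ∧ w < p ∧ (p : ℤ) ^ 2 ∣ k)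

lemma sq_of_not_bad {w : ℕ} {k : ℤ} (hk : ¬ Bad w k) (hs : sqw w k ≠ 0) :
    0 < k ∧ Squarefree k.toNat := by
  unfold Bad at hk
  push Not at hk
  obtain ⟨h1, h2⟩ := hk
  refine ⟨h1, ?_⟩
  rw [Nat.squarefree_iff_prime_squarefree]
  intro p hp hd
  have hd' : (p : ℤ) ^ 2 ∣ k := by
    have h3 : ((p * p : ℕ) : ℤ) ∣ (k.toNat : ℤ) := by exact_mod_cast hd
    rw [Int.toNat_of_nonneg h1.le] at h3
    rw [pow_two]
    exact_mod_cast h3
  by_cases hpw : w < p
  · exact h2 h1 p hp hpw hd'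
  · apply hs
    unfold sqw
    rw [if_neg]
    intro h4
    exact h4 p (mem_filter.2 ⟨mem_Icc.2 ⟨hp.one_lt.le, by omega⟩, hp⟩) hd'

lemma not_sq_of_sqw {w : ℕ} {k : ℤ} (hk : 0 < k) (hs : sqw w k = 0) :
    ¬ Squarefree k.toNat := by
  unfold sqw at hs
  split_ifs at hs with h
  · exact absurd hs one_ne_zero
  push Not at h
  obtain ⟨p, hp, hd⟩ := h
  rw [mem_filter] at hp
  intro hsq
  rw [Nat.squarefree_iff_prime_squarefree] at hsq
  apply hsq p hp.2
  have h3 : ((p * p : ℕ) : ℤ) ∣ (k.toNat : ℤ) := by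
    rw [Int.toNat_of_nonneg hk.le]
    push_cast
    rwa [← pow_two]
  exact_mod_cast h3

lemma mu_eq {k : ℤ} (hk : 0 < k) (hs : Squarefree k.toNat) :
    ((ArithmeticFunction.moebius k.toNat : ℤ) : ℝ) = lz k := by
  rw [ArithmeticFunction.moebius_apply_of_squarefree hs]
  unfold lz
  rw [if_neg hk.ne']
  unfold lam
  have : k.natAbs = k.toNat := by omega
  rw [this]
  push_cast
  rfl

lemma diff_zero {r : ℕ} (k : Fin r → ℤ) (ε : Fin r → ℕ) (hε : ∀ i, 1 ≤ ε i) (w : ℕ)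
    (hk : ∀ i, ¬ Bad w (k i)) :
    (∏ i, ((ArithmeticFunction.moebius (k i).toNat : ℤ) : ℝ) ^ ε i) -
      (∏ i ∈ Finset.univ.filter (fun i => Odd (ε i)), lz (k i)) * ∏ i, sqw w (k i) = 0 := by
  by_cases h : ∃ i, sqw w (k i) = 0
  · obtain ⟨i, hi⟩ := h
    have hki : 0 < k i := by
      by_contra hc
      exact hk i (Or.inl (not_lt.1 hc))
    have h1 : ∏ i, sqw w (k i) = 0 := Finset.prod_eq_zero (mem_univ i) hi
    have h2 : ∏ i, ((ArithmeticFunction.moebius (k i).toNat : ℤ) : ℝ) ^ ε i = 0 := by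
      apply Finset.prod_eq_zero (mem_univ i)
      rw [ArithmeticFunction.moebius_eq_zero_of_not_squarefree (not_sq_of_sqw hki hi)]
      have := hε i
      simp
      omega
    rw [h1, h2]
    simp
  · push Not at h
    have h1 : ∏ i, sqw w (k i) = 1 := by
      apply Finset.prod_eq_one
      intro i _
      have := h i
      unfold sqw at this ⊢
      split_ifs at this ⊢
      · rfl
      · exact absurd rfl this
    rw [h1, mul_one, Finset.prod_filter, sub_eq_zero]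
    refine Finset.prod_congr rfl fun i _ => ?_
    obtain ⟨hp, hs⟩ := sq_of_not_bad (hk i) (h i)
    rw [mu_eq hp hs]
    have hsq : lz (k i) ^ 2 = 1 := by
      rw [← sq_abs]
      unfold lz
      rw [if_neg hp.ne', abs_lam, one_pow]
    split_ifs with ho
    · obtain ⟨s, hs'⟩ := ho
      rw [hs', pow_succ, pow_mul, hsq, one_pow, one_mul]
    · rw [Nat.not_odd_iff_even] at ho
      obtain ⟨s, hs'⟩ := ho
      rw [hs', ← two_mul, pow_mul, hsq, one_pow]

open Classical in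
lemma diff_le {r : ℕ} (k : Fin r → ℤ) (ε : Fin r → ℕ) (hε : ∀ i, 1 ≤ ε i) (w : ℕ) :
    |(∏ i, ((ArithmeticFunction.moebius (k i).toNat : ℤ) : ℝ) ^ ε i) -
      (∏ i ∈ Finset.univ.filter (fun i => Odd (ε i)), lz (k i)) * ∏ i, sqw w (k i)| ≤
      2 * ∑ i, if Bad w (k i) then (1 : ℝ) else 0 := by
  by_cases h : ∃ i, Bad w (k i)
  · obtain ⟨i, hi⟩ := h
    have h1 : |∏ i, ((ArithmeticFunction.moebius (k i).toNat : ℤ) : ℝ) ^ ε i| ≤ 1 := by
      rw [Finset.abs_prod]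
      refine Finset.prod_le_one (fun _ _ => abs_nonneg _) fun i _ => ?_
      rw [abs_pow]
      exact pow_le_one₀ (abs_nonneg _) (abs_mu_le _)
    have h2 : |∏ i ∈ Finset.univ.filter (fun i => Odd (ε i)), lz (k i)| ≤ 1 := by
      rw [Finset.abs_prod]
      exact Finset.prod_le_one (fun _ _ => abs_nonneg _) fun i _ => abs_lz_le _
    have h3 : |∏ i, sqw w (k i)| ≤ 1 := by
      rw [Finset.abs_prod]
      exact Finset.prod_le_one (fun _ _ => abs_nonneg _) fun i _ => abs_sqw_le _ _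
    have h4 : (1 : ℝ) ≤ ∑ i, if Bad w (k i) then (1 : ℝ) else 0 := by
      have h5 := Finset.single_le_sum (f := fun i => if Bad w (k i) then (1 : ℝ) else 0)
        (s := univ) (fun j _ => by split_ifs <;> norm_num) (mem_univ i)
      simp only [if_pos hi] at h5
      exact h5
    have h6 := abs_sub (∏ i, ((ArithmeticFunction.moebius (k i).toNat : ℤ) : ℝ) ^ ε i)
      ((∏ i ∈ Finset.univ.filter (fun i => Odd (ε i)), lz (k i)) * ∏ i, sqw w (k i))
    have h7 : |(∏ i ∈ Finset.univ.filter (fun i => Odd (ε i)), lz (k i)) * ∏ i, sqw w (k i)| ≤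
        1 := by
      rw [abs_mul]
      exact mul_le_one₀ h2 (abs_nonneg _) h3
    linarith
  · push Not at h
    rw [diff_zero k ε hε w h, abs_zero]
    have : 0 ≤ ∑ i, if Bad w (k i) then (1 : ℝ) else 0 :=
      Finset.sum_nonneg fun j _ => by split_ifs <;> norm_num
    linarith

open Classical in
/-- The number of bad `n`. -/
lemma card_bad_le (w : ℕ) (hw : 0 < w) (c : ℤ) (B : ℕ) (hc : |c| ≤ B) (N : ℕ) :
    (((Icc 1 N).filter fun n : ℕ => Bad w ((n : ℤ) + c)).card : ℝ) ≤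
      B + (((N : ℝ) + 1) * (1 / w) + (Nat.sqrt (N + 1 + B) : ℝ)) := by
  set S1 := (Icc 1 N).filter fun n : ℕ => ((n : ℤ) + c) ≤ 0 with hS1
  set S2 := (Icc 1 N).filter fun n : ℕ => (0 < (n : ℤ) + c ∧
    ∃ p : ℕ, p.Prime ∧ w < p ∧ (p : ℤ) ^ 2 ∣ (n : ℤ) + c) with hS2
  have h0 : (Icc 1 N).filter (fun n : ℕ => Bad w ((n : ℤ) + c)) ⊆ S1 ∪ S2 := by
    intro n hn
    rw [mem_filter] at hn
    rw [mem_union, hS1, hS2, mem_filter, mem_filter]
    rcases hn.2 with h | h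
    · exact Or.inl ⟨hn.1, h⟩
    · exact Or.inr ⟨hn.1, h⟩
  have h1 : S1.card ≤ B := by
    have h2 : S1 ⊆ Icc 1 B := by
      intro n hn
      rw [hS1, mem_filter, mem_Icc] at hn
      rw [mem_Icc]
      have := (abs_le.1 hc).1
      omega
    have := Finset.card_le_card h2
    simpa using this
  have h2 := card_nonsq_le 1 w one_pos hw (by
    intro p hp _ hd
    have h3 := Nat.dvd_one.1 hd
    have h4 := hp.one_lt
    nlinarith) c 0 (N + 1) B hc S2 (by
    intro u hu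
    rw [hS2, mem_filter, mem_Icc] at hu
    exact ⟨by omega, Nat.modEq_one, hu.2⟩)
  have h3 : (Nat.primeFactors 1).filter (fun p => w < p) = ∅ := by simp
  rw [h3, Finset.sum_empty, add_zero] at h2
  have h4 : (((Icc 1 N).filter fun n : ℕ => Bad w ((n : ℤ) + c)).card : ℝ) ≤
      (S1.card : ℝ) + S2.card := by
    exact_mod_cast (Finset.card_le_card h0).trans (Finset.card_union_le _ _)
  have h5 : (S1.card : ℝ) ≤ B := by exact_mod_cast h1
  push_cast at h2
  rw [div_one] at h2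
  linarith

lemma sqrt_le_aux (w B N : ℕ) (hw : 0 < w) :
    (Nat.sqrt (N + 1 + B) : ℝ) ≤ (N : ℝ) / w + (w + B + 1) := by
  have hw0 : (0 : ℝ) < w := by exact_mod_cast hw
  have hw1 : (1 : ℝ) ≤ w := by exact_mod_cast hw
  have hs : ((Nat.sqrt (N + 1 + B) : ℕ) : ℝ) ^ 2 ≤ N + 1 + B := by
    have := Nat.sqrt_le' (N + 1 + B)
    exact_mod_cast this
  set s : ℝ := (Nat.sqrt (N + 1 + B) : ℝ)
  have hs0 : 0 ≤ s := Nat.cast_nonneg _
  by_cases h : s ≤ w
  · have : (0 : ℝ) ≤ (N : ℝ) / w := by positivity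
    have : (0 : ℝ) ≤ B := Nat.cast_nonneg _
    linarith
  · push Not at h
    have h1 : s ≤ s ^ 2 / w := by
      rw [le_div_iff₀ hw0]
      nlinarith
    have h2 : s ^ 2 / w ≤ ((N : ℝ) + 1 + B) / w := div_le_div_of_nonneg_right hs hw0.le
    have h3 : ((N : ℝ) + 1 + B) / w = (N : ℝ) / w + (1 + B) / w := by
      rw [add_assoc, add_div]
    have h4 : (1 + (B : ℝ)) / w ≤ 1 + B := by
      apply div_le_self
      · positivity
      · exact hw1
    linarith

/-- The bound for one `N`. -/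
lemma one_N {r : ℕ} (α : Fin r → ℤ) (ε : Fin r → ℕ) (hε : ∀ i, 1 ≤ ε i) (w : ℕ) (hw : 0 < w)
    (B : ℕ) (hB : ∀ i, |α i| ≤ B) (N : ℕ) (hN : 0 < N) (S : Finset ℕ) (hS : S ⊆ Icc 1 N) :
    |(∑ n ∈ S, ((∏ i, ((ArithmeticFunction.moebius (((n : ℤ) + α i).toNat) : ℤ) : ℝ) ^ ε i) -
      (∏ i ∈ Finset.univ.filter (fun i => Odd (ε i)), lz ((n : ℤ) + α i)) *
        ∏ i, sqw w ((n : ℤ) + α i))) / N| ≤
      2 * r * (3 / w) + 2 * r * (2 * B + w + 2) * (1 / N) := by
  classical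
  have hN0 : (0 : ℝ) < N := by exact_mod_cast hN
  have hN1 : (1 : ℝ) ≤ N := by exact_mod_cast hN
  have hw0 : (0 : ℝ) < w := by exact_mod_cast hw
  rw [abs_div, abs_of_pos hN0, div_le_iff₀ hN0]
  have h1 : |∑ n ∈ S, ((∏ i, ((ArithmeticFunction.moebius (((n : ℤ) + α i).toNat) : ℤ) : ℝ) ^ ε i) -
      (∏ i ∈ Finset.univ.filter (fun i => Odd (ε i)), lz ((n : ℤ) + α i)) *
        ∏ i, sqw w ((n : ℤ) + α i))| ≤
      ∑ n ∈ Icc 1 N, 2 * ∑ i, if Bad w ((n : ℤ) + α i) then (1 : ℝ) else 0 := by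
    refine (Finset.abs_sum_le_sum_abs _ _).trans ?_
    refine (Finset.sum_le_sum fun (n : ℕ) _ =>
      diff_le (fun i => (n : ℤ) + α i) ε hε w).trans ?_
    refine Finset.sum_le_sum_of_subset_of_nonneg hS fun n _ _ => ?_
    have : 0 ≤ ∑ i, if Bad w ((n : ℤ) + α i) then (1 : ℝ) else 0 :=
      Finset.sum_nonneg fun j _ => by split_ifs <;> norm_num
    linarith
  refine h1.trans ?_
  rw [← Finset.mul_sum, Finset.sum_comm]
  have h2 : ∀ i ∈ (univ : Finset (Fin r)),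
      (∑ n ∈ Icc 1 N, if Bad w ((n : ℤ) + α i) then (1 : ℝ) else 0) ≤
      3 / w * N + (2 * B + w + 2) := by
    intro i _
    have h3 : (∑ n ∈ Icc 1 N, if Bad w ((n : ℤ) + α i) then (1 : ℝ) else 0) =
        (((Icc 1 N).filter fun n : ℕ => Bad w ((n : ℤ) + α i)).card : ℝ) := by
      rw [Finset.sum_boole]
    rw [h3]
    have h4 := card_bad_le w hw (α i) B (hB i) N
    have h5 := sqrt_le_aux w B N hw
    have h6 : ((N : ℝ) + 1) * (1 / w) ≤ 2 / w * N := by
      rw [mul_one_div, div_mul_eq_mul_div]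
      apply div_le_div_of_nonneg_right _ hw0.le
      linarith
    have h7 : 3 / (w : ℝ) * N = 2 / w * N + N / w := by ring
    rw [h7]
    linarith
  have h8 := Finset.sum_le_sum h2
  rw [Finset.sum_const, nsmul_eq_mul, Finset.card_univ, Fintype.card_fin] at h8
  have h9 : (2 * (r : ℝ) * (3 / w) + 2 * r * (2 * B + w + 2) * (1 / N)) * N =
      2 * (r * (3 / w * N + (2 * B + w + 2))) := by
    field_simp
  rw [h9]
  linarith

lemma sum_sq_inv_le (x y : ℕ) : ∑ N ∈ Icc x y, (1 / (N : ℝ)) * (1 / N) ≤ 2 := by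
  have h1 : ∑ N ∈ Icc x y, (1 / (N : ℝ)) * (1 / N) ≤
      ∑ N ∈ Ioo 0 (y + 1), (1 / (N : ℝ)) * (1 / N) := by
    have h2 : ∑ N ∈ Icc x y, (1 / (N : ℝ)) * (1 / N) ≤
        ∑ N ∈ insert 0 (Ioo 0 (y + 1)), (1 / (N : ℝ)) * (1 / N) := by
      refine Finset.sum_le_sum_of_subset_of_nonneg ?_ fun n _ _ => by positivity
      intro n hn
      rw [mem_Icc] at hn
      rw [mem_insert, mem_Ioo]
      omega
    rw [Finset.sum_insert (by simp)] at h2
    simpa using h2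
  refine h1.trans ?_
  have h3 := sum_Ioo_inv_sq_le (α := ℝ) 0 (y + 1)
  have h4 : ∀ N ∈ Ioo 0 (y + 1), (1 / (N : ℝ)) * (1 / N) = ((N : ℝ) ^ 2)⁻¹ := by
    intro N _
    rw [one_div, ← mul_inv, pow_two]
  rw [Finset.sum_congr rfl h4]
  simpa using h3

open Classical in
/-- [MUA] with `w` depending only on the number of the forms and on `η`. -/
theorem mua_unif (r : ℕ) (η : ℝ) (hη : 0 < η) : ∃ w : ℕ, 0 < w ∧
    ∀ (m : ℕ) (a : Fin r → ℤ) (b : Fin r → Fin m → ℤ) (ε : Fin r → ℕ) (q n₀ : ℕ),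
    (∀ i, 1 ≤ ε i) → ∀ T : ℕ, ∃ K : ℕ, ∀ x y : ℕ, 0 < x → K * x ≤ y →
    ∀ t ∈ box m T,
      ∑ N ∈ Finset.Icc x y, (1 / (N : ℝ)) *
        (|(∑ n ∈ (Finset.Icc 1 N).filter (fun n => n ≡ n₀ [MOD q]),
            ((∏ i, ((ArithmeticFunction.moebius
              (((n : ℤ) + (a i + ∑ l, b i l * t l)).toNat) : ℤ) : ℝ) ^ ε i) -
            (∏ i ∈ Finset.univ.filter (fun i => Odd (ε i)),
                lz (frm (a i) (b i) n (fun l => (t l : ℤ)))) *
              ∏ i, sqw w (frm (a i) (b i) n (fun l => (t l : ℤ))))) / N|) ≤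
      η * Real.log (y / x) := by
  obtain ⟨w₀, hw₀⟩ := exists_nat_ge (18 * (r : ℝ) / η)
  refine ⟨w₀ + 1, by omega, fun m a b ε q n₀ hε T => ?_⟩
  set w := w₀ + 1 with hw
  have hwp : 0 < w := by omega
  have hw0 : (0 : ℝ) < w := by exact_mod_cast hwp
  have hwη : 2 * (r : ℝ) * (3 / w) ≤ η / 3 := by
    have h1 : 18 * (r : ℝ) / η ≤ w := by
      refine hw₀.trans ?_
      rw [hw]
      push_cast
      linarith
    rw [div_le_iff₀ hη] at h1
    have h2 : 2 * (r : ℝ) * (3 / w) = 6 * r / w := by ring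
    rw [h2, div_le_iff₀ hw0]
    nlinarith
  obtain ⟨B, hB⟩ : ∃ B : ℕ, ∀ t ∈ box m T, ∀ i, |a i + ∑ l, b i l * (t l : ℤ)| ≤ B := by
    refine ⟨(∑ t ∈ box m T, ∑ i, |a i + ∑ l, b i l * (t l : ℤ)|).toNat, ?_⟩
    intro t ht i
    have h1 : |a i + ∑ l, b i l * (t l : ℤ)| ≤ ∑ i, |a i + ∑ l, b i l * (t l : ℤ)| :=
      Finset.single_le_sum (f := fun i => |a i + ∑ l, b i l * (t l : ℤ)|)
        (fun j _ => abs_nonneg _) (mem_univ i)
    have h2 : ∑ i, |a i + ∑ l, b i l * (t l : ℤ)| ≤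
        ∑ t ∈ box m T, ∑ i, |a i + ∑ l, b i l * (t l : ℤ)| :=
      Finset.single_le_sum (f := fun t : Fin m → ℕ => ∑ i, |a i + ∑ l, b i l * (t l : ℤ)|)
        (fun j _ => Finset.sum_nonneg fun _ _ => abs_nonneg _) ht
    rw [Int.toNat_of_nonneg (Finset.sum_nonneg fun _ _ => Finset.sum_nonneg fun _ _ => abs_nonneg _)]
    exact h1.trans h2
  set C : ℝ := 2 * r * (2 * B + w + 2) with hC
  have hC0 : 0 ≤ C := by positivity
  obtain ⟨K, hK⟩ := exists_nat_ge (Real.exp (1 + 6 * C / η))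
  refine ⟨K, fun x y hx hxy t ht => ?_⟩
  have hx0 : (0 : ℝ) < x := by exact_mod_cast hx
  have hKx : (K : ℝ) ≤ (y : ℝ) / x := by
    rw [le_div_iff₀ hx0]
    exact_mod_cast hxy
  have hL : 1 + 6 * C / η ≤ Real.log ((y : ℝ) / x) := by
    rw [Real.le_log_iff_exp_le ((Real.exp_pos _).trans_le (hK.trans hKx))]
    exact hK.trans hKx
  have hK1 : 1 ≤ K := by
    have h1 : (1 : ℝ) ≤ K := (Real.one_le_exp (by positivity)).trans hK
    exact_mod_cast h1
  have hxy' : x ≤ y := le_trans (by nlinarith) hxy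
  have h1 : ∀ N ∈ Icc x y, (1 / (N : ℝ)) *
      |(∑ n ∈ (Finset.Icc 1 N).filter (fun n => n ≡ n₀ [MOD q]),
            ((∏ i, ((ArithmeticFunction.moebius
              (((n : ℤ) + (a i + ∑ l, b i l * t l)).toNat) : ℤ) : ℝ) ^ ε i) -
            (∏ i ∈ Finset.univ.filter (fun i => Odd (ε i)),
                lz (frm (a i) (b i) n (fun l => (t l : ℤ)))) *
              ∏ i, sqw w (frm (a i) (b i) n (fun l => (t l : ℤ))))) / N| ≤
      (1 / (N : ℝ)) * (η / 3) + C * ((1 / (N : ℝ)) * (1 / N)) := by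
    intro N hN
    rw [mem_Icc] at hN
    have h2 := one_N (fun i => a i + ∑ l, b i l * (t l : ℤ)) ε hε w hwp B (hB t ht) N
      (by omega) ((Finset.Icc 1 N).filter (fun n => n ≡ n₀ [MOD q])) (Finset.filter_subset _ _)
    have h3 : ∀ (n : ℕ) (i : Fin r), frm (a i) (b i) n (fun l => (t l : ℤ)) =
        (n : ℤ) + (a i + ∑ l, b i l * (t l : ℤ)) := by
      intro n i
      unfold frm
      ring
    simp only [h3]
    have hN0 : (0 : ℝ) ≤ 1 / N := by positivity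
    have h4 := mul_le_mul_of_nonneg_left h2 hN0
    refine h4.trans ?_
    rw [mul_add]
    have h5 := mul_le_mul_of_nonneg_left hwη hN0
    have h6 : (1 / (N : ℝ)) * (2 * r * (2 * B + w + 2) * (1 / N)) =
        C * ((1 / (N : ℝ)) * (1 / N)) := by
      rw [hC]
      ring
    rw [h6]
    linarith
  refine (Finset.sum_le_sum h1).trans ?_
  rw [Finset.sum_add_distrib, ← Finset.sum_mul, ← Finset.mul_sum]
  have h7 := Pool.Agent.H66.AAS.sum_inv_le x y hx hxy'
  have h8 := sum_sq_inv_le x y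
  have h9 : 6 * C / η * η = 6 * C := by field_simp
  have h10 := mul_le_mul_of_nonneg_right hL hη.le
  have h11 := mul_le_mul_of_nonneg_right h7 (show (0 : ℝ) ≤ η / 3 by positivity)
  have h12 := mul_le_mul_of_nonneg_left h8 hC0
  nlinarith

/-- [MUA]. -/
theorem mua_main : StatementMUA := by
  intro m r a b ε q n₀ η hε _ hη
  obtain ⟨w, _, h⟩ := mua_unif r η hη
  exact ⟨w, fun T => h m a b ε q n₀ hε T⟩

end Pool.Agent.H92.LF
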