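import Pool.Agent.H91.LF.Defs3
import Pool.Agent.H92.LF.Mua

/-!
The module MUAU of the project LF on `MP_c59857_nt`.
-/

set_option autoImplicit false

namespace Pool.Agent.H92.LF

open Pool.Agent.H91.LF

/-- [MUAU]. -/
theorem muau_main : StatementMUAU := by
  intro r η hη
  obtain ⟨w, _, h⟩ := mua_unif r η hη
  exact ⟨w, fun m a b ε q n₀ hε _ T => h m a b ε q n₀ hε T⟩

end Pool.Agent.H92.LF
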